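import Pool.Agent.H200G.Stm2

set_option autoImplicit false

/-! # Project GR, job GR-KC2 -/

namespace Pool.Agent.Q211.GR

open Finset Pool.Agent.TH176.Nag Pool.Agent.TH603.Sur Pool.Agent.TH2.NU Pool.Agent.TH641.UM
open Pool.Agent.Y205.FW Pool.Agent.Y205.MD Pool.Agent.H200W Pool.Agent.H200P Pool.Agent.H200C
open Pool.Agent.Q53.WR Pool.Agent.H200G

/-- GR-KC2 -/
theorem kC2 : S_KC2 := by
  classical
  intro hC d h K J w hh hG hW hk
  obtain ⟨Λ, hΛ, hΛ2, hSK, -⟩ := hW d le_rfl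
  rcases J.eq_empty_or_nonempty with rfl | hJ
  · rw [sum_empty, add_zero]
    have h6 := crk_of_Sur (w := vec K) hSK.1
    rw [cond_vec] at h6
    unfold crkM
    omega
  rcases le_or_gt (4 * h ^ 2) (∑ k ∈ J, ((w k).map fun v : ℕ => (v : ℝ) ^ 2).sum) with hs | hs
  · exact hC K J w hh hJ hG hW hk hs
  obtain ⟨S, hS⟩ : ∃ S, S = ∑ k ∈ J, ((w k).map fun v : ℕ => (v : ℝ) ^ 2).sum := ⟨_, rfl⟩
  rw [← hS] at hs
  obtain ⟨k, hkJ⟩ := hJ
  obtain ⟨hw0, hw1, hw2⟩ := hG k hkJ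
  obtain ⟨v, hv⟩ := Multiset.exists_mem_of_ne_zero hw0
  obtain ⟨hv1, hv2⟩ := hw1 v hv
  have hvR : (1 : ℝ) ≤ v := by exact_mod_cast hv1
  have hv0 : (0 : ℝ) < (v : ℝ) ^ 2 := by positivity
  have hvh : (v : ℝ) ≤ h := by
    have h1 := hk k hkJ
    have h2 : (v : ℝ) < 2 ^ k := by exact_mod_cast hv2
    unfold et at h1
    have h3 : (0 : ℝ) < 2 ^ k := by positivity
    linarith
  obtain ⟨n, hn⟩ : ∃ n : ℕ, n = ⌈(4 * h ^ 2 - S) / (v : ℝ) ^ 2⌉₊ := ⟨_, rfl⟩
  have hn1 : 4 * h ^ 2 - S ≤ n * (v : ℝ) ^ 2 := by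
    have h1 := Nat.le_ceil ((4 * h ^ 2 - S) / (v : ℝ) ^ 2)
    rw [← hn, div_le_iff₀ hv0] at h1
    exact h1
  have hn2 : n * (v : ℝ) ^ 2 ≤ 4 * h ^ 2 - S + (v : ℝ) ^ 2 := by
    have h1 := Nat.ceil_lt_add_one (a := (4 * h ^ 2 - S) / (v : ℝ) ^ 2)
      (div_nonneg (by linarith) hv0.le)
    rw [← hn] at h1
    have h2 : (n : ℝ) * (v : ℝ) ^ 2 ≤ ((4 * h ^ 2 - S) / (v : ℝ) ^ 2 + 1) * (v : ℝ) ^ 2 :=
      mul_le_mul_of_nonneg_right h1.le hv0.le
    rw [add_mul, div_mul_cancel₀ _ hv0.ne', one_mul] at h2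
    exact h2
  set w' : ℕ → Multiset ℕ := Function.update w k (w k + Multiset.replicate n v) with hw'
  have hwk : w' k = w k + Multiset.replicate n v := Function.update_self _ _ _
  have hwne : ∀ l, l ≠ k → w' l = w l := fun l hl => Function.update_of_ne hl _ _
  have hsum : ∀ (A : Type) [AddCommMonoid A] (f : Multiset ℕ → A) (c : A),
      f (w k + Multiset.replicate n v) = f (w k) + c →
      ∑ l ∈ J, f (w' l) = ∑ l ∈ J, f (w l) + c := by
    intro A _ f c hf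
    rw [← sum_erase_add _ _ hkJ, ← sum_erase_add _ (fun l => f (w l)) hkJ, hwk, hf, ← add_assoc]
    congr 2
    exact sum_congr rfl fun l hl => by rw [hwne l (ne_of_mem_erase hl)]
  have hsumM : ∑ l ∈ J, w' l = ∑ l ∈ J, w l + Multiset.replicate n v :=
    hsum (Multiset ℕ) (fun x => x) _ rfl
  have hsumR : ∑ l ∈ J, ((w' l).map fun v : ℕ => (v : ℝ) ^ 2).sum = S + n * (v : ℝ) ^ 2 := by
    rw [hS]
    refine hsum ℝ (fun x => (x.map fun v : ℕ => (v : ℝ) ^ 2).sum) _ ?_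
    simp only [Multiset.map_add, Multiset.sum_add, Multiset.map_replicate,
      Multiset.sum_replicate, nsmul_eq_mul]
  have hG' : ∀ l ∈ J, Grp l (w' l) := by
    intro l hl
    rcases eq_or_ne l k with rfl | hlk
    · rw [hwk]
      refine ⟨?_, ?_, ?_⟩
      · intro h0
        exact hw0 (Multiset.le_zero.1 (h0 ▸ Multiset.le_add_right _ _))
      · intro x hx
        rw [Multiset.mem_add, Multiset.mem_replicate] at hx
        rcases hx with hx | ⟨-, rfl⟩
        · exact hw1 x hx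
        · exact ⟨hv1, hv2⟩
      · have h1 : (w l + Multiset.replicate n v).toFinset ⊆ (w l).toFinset := by
          intro a
          simp only [Multiset.mem_toFinset, Multiset.mem_add, Multiset.mem_replicate]
          rintro (h | ⟨-, rfl⟩)
          · exact h
          · exact hv
        refine (Nat.mul_le_mul_left _ (Finset.card_le_card h1)).trans (hw2.trans ?_)
        rw [Multiset.map_add, Multiset.sum_add]
        exact Nat.le_add_right _ _
    · rw [hwne l hlk]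
      exact hG l hl
  have h1 := hC K J w' hh ⟨k, hkJ⟩ hG' hW hk (by rw [hsumR]; linarith)
  have hcardR := p_card (M1 := 0) (M2 := 0) (M3 := 0) (d := d) le_rfl le_rfl (by omega)
  have hcard : 2 * ((HX 0 0 0 d).card : ℝ) = ((d : ℝ) + 1) * (d + 2) := by
    have : 2 * (HX 0 0 0 d).card = (d + 1) * (d + 2) := by omega
    exact_mod_cast this
  have h2 : TH2.NU.condM (K + ∑ l ∈ J, w' l) ≤ (HX 0 0 0 d).card := by
    rw [condM_add K]
    have h3 : (TH2.NU.condM (∑ l ∈ J, w' l) : ℝ) ≤ 5 * h ^ 2 := by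
      have h4 := condM_le (∑ l ∈ J, w' l)
      have h5 : ((((∑ l ∈ J, w' l).map fun v => v ^ 2).sum : ℕ) : ℝ) =
          ∑ l ∈ J, ((w' l).map fun v : ℕ => (v : ℝ) ^ 2).sum := by
        have h6 : ∀ I : Finset ℕ, ((((∑ l ∈ I, w' l).map fun v => v ^ 2).sum : ℕ) : ℝ) =
            ∑ l ∈ I, ((w' l).map fun v : ℕ => (v : ℝ) ^ 2).sum := by
          intro I
          induction I using Finset.induction_on with
          | empty => simp
          | insert a I ha ih =>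
            rw [sum_insert ha, sum_insert ha, Multiset.map_add, Multiset.sum_add, Nat.cast_add, ih,
              Nat.cast_multiset_sum, Multiset.map_map]
            congr 2
            refine Multiset.map_congr rfl fun x _ => ?_
            simp
        exact h6 J
      have h7 : (TH2.NU.condM (∑ l ∈ J, w' l) : ℝ) ≤
          ((((∑ l ∈ J, w' l).map fun v => v ^ 2).sum : ℕ) : ℝ) := by exact_mod_cast h4
      rw [h5, hsumR] at h7
      have h8 : (v : ℝ) ^ 2 ≤ h ^ 2 := pow_le_pow_left₀ (by linarith) hvh 2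
      linarith
    have h4 : 128 * h * ((d : ℝ) + 2) ≤
        2 * ((HX 0 0 0 d).card : ℝ) - 2 * (TH2.NU.condM K : ℝ) := by
      have h5 : 2 * ((d : ℝ) + 2) ≤
          (2 * ((HX 0 0 0 d).card : ℝ) - 2 * (TH2.NU.condM K : ℝ)) / (64 * h) := by linarith
      rw [le_div_iff₀ (by linarith)] at h5
      linarith
    have hd0 : (0 : ℝ) ≤ d := Nat.cast_nonneg d
    have hK0 : (0 : ℝ) ≤ TH2.NU.condM K := Nat.cast_nonneg _
    have h5 : 128 * h ≤ (d : ℝ) + 1 := by
      rw [hcard] at h4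
      have h6 : 128 * h * ((d : ℝ) + 2) ≤ ((d : ℝ) + 1) * (d + 2) := by linarith
      exact le_of_mul_le_mul_right h6 (by linarith)
    have h6 : 128 * h * (128 * h) ≤ 128 * h * ((d : ℝ) + 2) :=
      mul_le_mul_of_nonneg_left (by linarith) (by linarith)
    have h7 : (0 : ℝ) ≤ h ^ 2 := by positivity
    have h8 : (TH2.NU.condM K : ℝ) + TH2.NU.condM (∑ l ∈ J, w' l) ≤ (HX 0 0 0 d).card := by
      nlinarith
    exact_mod_cast h8
  obtain ⟨T, t1, t2, t3⟩ := crk_spec (HX 0 0 0 d) (vec (K + ∑ l ∈ J, w' l))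
  have h3 : TH2.NU.condM (K + ∑ l ∈ J, w' l) ≤ T.card := by
    unfold crkM at h1
    omega
  obtain ⟨T0, s1, s2⟩ := Finset.exists_subset_card_eq h3
  have h4 : SurM (K + ∑ l ∈ J, w' l) (↑(HX 0 0 0 d) : Set (ℤ × ℤ)) :=
    ⟨T0, by exact_mod_cast s1.trans t1, by rw [s2]; exact (cond_vec _).symm,
      t3.mono (by exact_mod_cast s1)⟩
  have h5 : Sur (vec (K + ∑ l ∈ J, w l)) (↑(HX 0 0 0 d) : Set (ℤ × ℤ)) := by
    apply sur_drop (w := fun _ : Fin n => v)
    refine (SurM_iff ?_ _).1 h4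
    rw [ms_sum, ms_fin, Multiset.nsmul_singleton, hsumM, ← add_assoc]
    congr 1
    exact ms_toList (K + ∑ l ∈ J, w l)
  have h6 := crk_of_Sur h5
  rw [cond_vec] at h6
  unfold crkM
  omega

end Pool.Agent.Q211.GR
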