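import Pool.Agent.H200G.Stm

set_option autoImplicit false

/-! # Project GR, job GR-NUM0 -/

namespace Pool.Agent.Q211.GR

open Finset Pool.Agent.H200G

theorem et_pos (k : ℕ) : 0 < et k := by
  unfold et
  positivity

theorem et_ge (k : ℕ) : 256 ≤ et k := by
  unfold et
  have h : (1 : ℝ) ≤ 2 ^ k := one_le_pow₀ (by norm_num)
  linarith

theorem et_mono {k l : ℕ} (h : k ≤ l) : et k ≤ et l := by
  unfold et
  have h1 : (2 : ℝ) ^ k ≤ 2 ^ l := pow_le_pow_right₀ (by norm_num) h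
  linarith

theorem et_sum (J : Finset ℕ) (m : ℕ) (hJ : ∀ k ∈ J, k ≤ m) : ∑ k ∈ J, et k ≤ 2 * et m := by
  have h1 : J ⊆ range (m + 1) := fun k hk => mem_range.2 (Nat.lt_succ_of_le (hJ k hk))
  have h2 : ∑ k ∈ J, et k ≤ ∑ k ∈ range (m + 1), et k :=
    sum_le_sum_of_subset_of_nonneg h1 fun k _ _ => (et_pos k).le
  refine h2.trans ?_
  unfold et
  rw [← mul_sum, geom_sum_eq (by norm_num)]
  rw [pow_succ]
  have h : (1 : ℝ) ≤ 2 ^ m := one_le_pow₀ (by norm_num)
  linarith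

/-- GR-NUM0 -/
theorem num0 : S_Num0 := by
  intro J n B hB h1 h2
  obtain ⟨q, hq⟩ : ∃ q, q = n B / et B := ⟨_, rfl⟩
  rw [← hq] at h2
  have hle : ∀ k ∈ J, n k ≤ q * et k := by
    intro k hk
    have h3 := h2 k hk
    rwa [div_le_iff₀ (et_pos k)] at h3
  have hge : ∀ k ∈ J, 1024 * et k ≤ q := by
    intro k hk
    have h3 := (h1 k hk).trans (hle k hk)
    have h4 : 1024 * et k * et k ≤ q * et k := by
      rw [mul_assoc, ← sq]
      exact h3
    exact le_of_mul_le_mul_right h4 (et_pos k)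
  obtain ⟨m, hm, hmax⟩ := J.exists_max_image id ⟨B, hB⟩
  have hs : ∑ k ∈ J, et k ≤ q / 512 := by
    have h3 := et_sum J m fun k hk => hmax k hk
    have h4 := hge m hm
    linarith
  have hq0 : 262144 ≤ q := by
    have h3 := hge B hB
    have h4 := et_ge B
    linarith
  have hn : ∑ k ∈ J, n k ≤ q * (q / 512) := by
    calc ∑ k ∈ J, n k ≤ ∑ k ∈ J, q * et k := sum_le_sum hle
      _ = q * ∑ k ∈ J, et k := by rw [mul_sum]
      _ ≤ q * (q / 512) := mul_le_mul_of_nonneg_left hs (by linarith)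
  have hnB : n B = et B * q := by
    rw [hq, mul_div_cancel₀ _ (et_pos B).ne']
  refine ⟨117 / 1000 * q, by linarith, by nlinarith, ?_⟩
  rw [hnB]
  have h5 : 4 * et B + 1 ≤ et B * (4 + 1 / 256) := by
    have := et_ge B
    linarith
  have h6 : (4 + 1 / 256) * (3 + 2 * (117 / 1000 * q)) ≤ q := by linarith
  calc (4 * et B + 1) * (3 + 2 * (117 / 1000 * q))
      ≤ et B * (4 + 1 / 256) * (3 + 2 * (117 / 1000 * q)) :=
        mul_le_mul_of_nonneg_right h5 (by linarith)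
    _ = et B * ((4 + 1 / 256) * (3 + 2 * (117 / 1000 * q))) := by ring
    _ ≤ et B * q := mul_le_mul_of_nonneg_left h6 (et_pos B).le

end Pool.Agent.Q211.GR
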