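import Pool.Agent.H200G.Stm3

set_option autoImplicit false

/-! # Project GR, job GR-RANK -/

namespace Pool.Agent.Q211.GR

open Finset Pool.Agent Pool.Agent.TH176.Nag Pool.Agent.TH603.Sur Pool.Agent.TH2.NU
open Pool.Agent.TH641.UM
open Pool.Agent.Y205.FW Pool.Agent.Y205.MD Pool.Agent.H200W Pool.Agent.H200P Pool.Agent.H200C
open Pool.Agent.H932R3 Pool.Agent.W609.CR Pool.Agent.H200G

theorem HX_TZ (d : ℕ) : (↑(HX 0 0 0 d) : Set (ℤ × ℤ)) = TZ d := by
  ext p
  rw [HX, Finset.coe_filter]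
  simp only [Finset.mem_product, Finset.mem_Icc, TZ, Nat.cast_zero, sub_zero]
  constructor
  · rintro ⟨⟨⟨h1, _⟩, h2, _⟩, h3, _⟩
    exact ⟨h1, h2, h3⟩
  · rintro ⟨h1, h2, h3⟩
    exact ⟨⟨⟨h1, by omega⟩, h2, by omega⟩, h3, by omega⟩

theorem sum_filter_ne (M : Multiset ℕ) (t : ℕ → ℕ) (h0 : t 0 = 0) :
    ((M.filter fun v => v ≠ 0).map t).sum = (M.map t).sum := by
  induction M using Multiset.induction_on with
  | empty => rfl
  | cons a M ih =>
    by_cases ha : a = 0
    · rw [Multiset.filter_cons_of_neg (p := fun v => v ≠ 0) M (not_not.2 ha), ih, Multiset.map_cons,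
        Multiset.sum_cons, ha, h0, zero_add]
    · rw [Multiset.filter_cons_of_pos (p := fun v => v ≠ 0) M ha, Multiset.map_cons, Multiset.sum_cons, ih,
        Multiset.map_cons, Multiset.sum_cons]

/-- GR-RANK -/
theorem rankG : S_RankG := by
  classical
  intro n d w M hMw h F _ _ P hPi
  set H := HX 0 0 0 d with hH
  have key : ∀ t : ℕ → ℕ, t 0 = 0 → (M.map t).sum = ∑ i, t (w i) := by
    intro t h0
    rw [← sum_filter_ne M t h0, hMw, sum_filter_ne _ t h0, Multiset.map_map]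
    rfl
  obtain ⟨T, hTH, hTc, hTE⟩ := crk_spec H (vec M)
  have hc' : crk H (vec M) ≤ H.card - TH2.NU.condM M := h
  have hE0 : Emp (fun p : {p // vec M p ≠ 0} => vec M p.1) (↑T : Set (ℤ × ℤ)) := by
    obtain ⟨K, _, _, x, y, hx, hy, hf⟩ := hTE
    refine ⟨K, inferInstance, inferInstance, fun i => x i.1, fun i => y i.1, fun i => hx _,
      fun i => hy _, fun f hS hL => hf f hS fun p => ?_⟩
    by_cases hp : vec M p = 0
    · rw [hp]
      exact LM_of_mono fun a b hab => absurd hab (Nat.not_lt_zero _)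
    · exact hL ⟨p, hp⟩
  have hsum : ∀ t : ℕ → ℕ, ∑ p : {p // vec M p ≠ 0}, t (vec M p.1) =
      ∑ i : {i : Fin n // w i ≠ 0}, t (w i.1) := by
    intro t
    have e1 : ∑ p : {p // vec M p ≠ 0}, t (vec M p.1) =
        ∑ p, (fun a => if a ≠ 0 then t a else 0) (vec M p) := by
      rw [← Finset.sum_filter]
      exact (Finset.sum_subtype (univ.filter fun p => vec M p ≠ 0) (by simp)
        (fun p => t (vec M p))).symm
    have e2 : ∑ i : {i : Fin n // w i ≠ 0}, t (w i.1) =
        ∑ i, (fun a => if a ≠ 0 then t a else 0) (w i) := by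
      rw [← Finset.sum_filter]
      exact (Finset.sum_subtype (univ.filter fun i => w i ≠ 0) (by simp)
        (fun i => t (w i))).symm
    rw [e1, e2]
    exact (sum_vec M (fun a => if a ≠ 0 then t a else 0)).trans (key _ (by simp))
  obtain ⟨σ, hσ⟩ := exists_equiv_of_sum hsum
  have hE1 : Emp w (↑T : Set (ℤ × ℤ)) :=
    Emp_emb (fun p => (σ p).1) (Subtype.val_injective.comp σ.injective)
      (fun p => le_of_eq (hσ p)) hE0
  have hcond : TH603.Sur.cond w = TH2.NU.condM M := by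
    unfold TH603.Sur.cond TH2.NU.condM
    exact (key (fun a => (a + 1).choose 2) rfl).symm
  have hne : ∀ Q : MvPolynomial (Fin n × Fin 2) ℚ, Q ≠ 0 →
      MvPolynomial.aeval (fun ij : Fin n × Fin 2 => P ij.1 ij.2) Q ≠ 0 := by
    intro Q hQ h0
    apply hQ
    apply hPi
    rw [h0, map_zero]
  rcases le_or_gt (TH2.NU.condM M) H.card with h1 | h1
  · have h2 : TH603.Sur.cond w ≤ T.card := by
      rw [hcond]
      omega
    obtain ⟨T0, s1, s2⟩ := Finset.exists_subset_card_eq h2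
    have h3 : Sur w (TZ d) := by
      refine ⟨T0, ?_, s2, hE1.mono (by exact_mod_cast s1)⟩
      rw [← HX_TZ]
      exact_mod_cast s1.trans hTH
    obtain ⟨Q, hQ, hQ'⟩ := indep_open h3
    exact hQ' P (hne Q hQ) d le_rfl
  · have h2 : T = H := by
      apply Finset.eq_of_subset_of_card_le hTH
      omega
    have h3 : Emp w (TZ d) := by
      rw [← HX_TZ, ← hH, ← h2]
      exact hE1
    obtain ⟨Q, hQ, hQ'⟩ := full_open h3
    exact hQ' P (hne Q hQ) d le_rfl

end Pool.Agent.Q211.GR
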