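import Pool.Agent.H200G.Stm

set_option autoImplicit false

/-! # Project GR, job GR-SLAB -/

namespace Pool.Agent.Q211.GR

open Finset Pool.Agent.TH641.UM Pool.Agent.H200W Pool.Agent.H200G

theorem etp (k : ℕ) : 0 < et k := by
  unfold et
  positivity

theorem et1 (k : ℕ) : 1 ≤ et k := by
  unfold et
  have h : (1 : ℝ) ≤ 2 ^ k := one_le_pow₀ (by norm_num)
  linarith

theorem tS_map (L : List (Multiset ℕ × ℝ × ℝ)) :
    ((L.map fun x => (x.1, x.2.1)).map Prod.snd).sum = tS L := by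
  unfold tS
  rw [List.map_map]
  rfl

theorem tE_map (L : List (Multiset ℕ × ℝ × ℝ)) :
    ((L.map fun x => (x.1, x.2.2)).map Prod.snd).sum = tE L := by
  unfold tE
  rw [List.map_map]
  rfl

theorem tM_mapS (L : List (Multiset ℕ × ℝ × ℝ)) :
    ((L.map fun x => (x.1, x.2.1)).map Prod.fst).sum = tM L := by
  unfold tM
  rw [List.map_map]
  rfl

theorem tM_mapE (L : List (Multiset ℕ × ℝ × ℝ)) :
    ((L.map fun x => (x.1, x.2.2)).map Prod.fst).sum = tM L := by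
  unfold tM
  rw [List.map_map]
  rfl

theorem tE_le_tS (L : List (Multiset ℕ × ℝ × ℝ)) (h : ∀ x ∈ L, x.2.2 ≤ x.2.1) : tE L ≤ tS L :=
  List.sum_le_sum h

theorem tE_nonneg (L : List (Multiset ℕ × ℝ × ℝ)) (h : ∀ x ∈ L, 0 ≤ x.2.2) : 0 ≤ tE L := by
  refine List.sum_nonneg fun a ha => ?_
  obtain ⟨x, hx, rfl⟩ := List.mem_map.1 ha
  exact h x hx

theorem slabS (hS : StepS) (hN : Num0) : ∀ (N : ℕ) (J : Finset ℕ), J.card = N →
    ∀ L : ℕ → List (Multiset ℕ × ℝ × ℝ),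
    (∀ k ∈ J, ∀ x ∈ L k, UnitS (et k) x.1 x.2.1 ∧ UnitE (et k) x.1 x.2.2 ∧ 0 ≤ x.2.2 ∧
      x.2.2 ≤ x.2.1) →
    (∀ k ∈ J, 1024 * et k ^ 2 ≤ tE (L k)) →
    TrS 7 (∑ k ∈ J, tM (L k)) (∑ k ∈ J, tS (L k)) := by
  intro N
  induction N with
  | zero =>
    intro J hJ L _ _
    rw [Finset.card_eq_zero.1 hJ, sum_empty, sum_empty]
    intro ρ b _ _ _ _
    exact Pool.Agent.H200P.surM_zero _
  | succ N ih =>
    intro J hJ L h1 h2
    obtain ⟨B, hB, hmax⟩ := J.exists_max_image (fun k => tS (L k) / et k)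
      (card_pos.1 (by omega))
    have hge : ∀ k ∈ J, 1024 * et k ^ 2 ≤ tS (L k) := fun k hk =>
      (h2 k hk).trans (tE_le_tS _ fun x hx => (h1 k hk x hx).2.2.2)
    have hnn : ∀ k ∈ J, 0 ≤ tS (L k) := fun k hk =>
      le_trans (by have := etp k; positivity) (hge k hk)
    obtain ⟨Y, hY0, hY1, hY2⟩ := hN J (fun k => tS (L k)) B hB hge hmax
    have hih := ih (J.erase B) (by rw [card_erase_of_mem hB]; omega) L
      (fun k hk => h1 k (mem_of_mem_erase hk)) (fun k hk => h2 k (mem_of_mem_erase hk))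
    have hs : ∑ k ∈ J.erase B, tS (L k) + tS (L B) = ∑ k ∈ J, tS (L k) :=
      sum_erase_add _ _ hB
    have hm : ∑ k ∈ J.erase B, tM (L k) + tM (L B) = ∑ k ∈ J, tM (L k) :=
      sum_erase_add _ _ hB
    have h3 := hS (R := 7) (η := et B) (nA := ∑ k ∈ J.erase B, tS (L k)) (Y := Y)
      (A := ∑ k ∈ J.erase B, tM (L k)) ((L B).map fun x => (x.1, x.2.1)) (by norm_num) (et1 B)
      (sum_nonneg fun k hk => hnn k (mem_of_mem_erase hk)) hih
      (by
        intro y hy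
        obtain ⟨x, hx, rfl⟩ := List.mem_map.1 hy
        obtain ⟨a1, a2, a3, a4⟩ := h1 B hB x hx
        exact ⟨a1, a3.trans a4⟩) hY0
      (by rw [tS_map, hs]; exact hY1) (by rw [tS_map]; exact hY2)
    rw [tS_map, tM_mapS, hs, hm] at h3
    exact h3

theorem slabE (hS : StepE) (hN : Num0) : ∀ (N : ℕ) (J : Finset ℕ), J.card = N + 1 →
    ∀ L : ℕ → List (Multiset ℕ × ℝ × ℝ),
    (∀ k ∈ J, ∀ x ∈ L k, UnitS (et k) x.1 x.2.1 ∧ UnitE (et k) x.1 x.2.2 ∧ 0 ≤ x.2.2 ∧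
      x.2.2 ≤ x.2.1) →
    (∀ k ∈ J, 1024 * et k ^ 2 ≤ tE (L k)) →
    TrE 7 (∑ k ∈ J, tM (L k)) (∑ k ∈ J, tE (L k)) := by
  intro N
  induction N with
  | zero =>
    intro J hJ L h1 h2
    obtain ⟨B, hB⟩ := card_eq_one.1 hJ
    have hBJ : B ∈ J := by rw [hB]; exact mem_singleton_self B
    obtain ⟨Y, hY0, hY1, hY2⟩ := hN J (fun k => tE (L k)) B hBJ h2 (by
      intro k hk
      rw [hB, mem_singleton] at hk
      rw [hk])
    have h3 := hS (R := 7) (η := et B) (nA := 0) (Y := Y)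
      (A := 0) ((L B).map fun x => (x.1, x.2.2)) (by norm_num) (et1 B)
      (Or.inl ⟨rfl, rfl⟩)
      (by
        intro y hy
        obtain ⟨x, hx, rfl⟩ := List.mem_map.1 hy
        obtain ⟨a1, a2, a3, a4⟩ := h1 B hBJ x hx
        exact ⟨a2, a3⟩) hY0
      (by rw [tE_map, zero_add]; rw [hB, sum_singleton] at hY1; exact hY1)
      (by rw [tE_map]; exact hY2)
    rw [tE_map, tM_mapE, zero_add, zero_add] at h3
    rw [hB, sum_singleton, sum_singleton]
    exact h3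
  | succ N ih =>
    intro J hJ L h1 h2
    obtain ⟨B, hB, hmax⟩ := J.exists_max_image (fun k => tE (L k) / et k)
      (card_pos.1 (by omega))
    have hpp : ∀ k ∈ J, 0 < tE (L k) := fun k hk =>
      lt_of_lt_of_le (by have := etp k; positivity) (h2 k hk)
    obtain ⟨Y, hY0, hY1, hY2⟩ := hN J (fun k => tE (L k)) B hB h2 hmax
    have hih := ih (J.erase B) (by rw [card_erase_of_mem hB]; omega) L
      (fun k hk => h1 k (mem_of_mem_erase hk)) (fun k hk => h2 k (mem_of_mem_erase hk))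
    have hs : ∑ k ∈ J.erase B, tE (L k) + tE (L B) = ∑ k ∈ J, tE (L k) :=
      sum_erase_add _ _ hB
    have hm : ∑ k ∈ J.erase B, tM (L k) + tM (L B) = ∑ k ∈ J, tM (L k) :=
      sum_erase_add _ _ hB
    have hne : (J.erase B).Nonempty := by
      rw [← card_pos, card_erase_of_mem hB]
      omega
    have h3 := hS (R := 7) (η := et B) (nA := ∑ k ∈ J.erase B, tE (L k)) (Y := Y)
      (A := ∑ k ∈ J.erase B, tM (L k)) ((L B).map fun x => (x.1, x.2.2)) (by norm_num) (et1 B)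
      (Or.inr ⟨sum_pos (fun k hk => hpp k (mem_of_mem_erase hk)) hne, hih⟩)
      (by
        intro y hy
        obtain ⟨x, hx, rfl⟩ := List.mem_map.1 hy
        obtain ⟨a1, a2, a3, a4⟩ := h1 B hB x hx
        exact ⟨a2, a3⟩) hY0
      (by rw [tE_map, hs]; exact hY1) (by rw [tE_map]; exact hY2)
    rw [tE_map, tM_mapE, hs, hm] at h3
    exact h3

/-- GR-SLAB -/
theorem slab : S_Slab := by
  intro h1 h2 h3 J L h4 h5
  refine ⟨slabS h1 h3 J.card J rfl L h4 h5, fun hJ => ?_⟩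
  have h6 : J.card = (J.card - 1) + 1 := by
    have := card_pos.2 hJ
    omega
  exact slabE h2 h3 (J.card - 1) J h6 L h4 h5

end Pool.Agent.Q211.GR
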