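import Pool.Agent.H200G.Stm

set_option autoImplicit false

/-! # Project GR, job GR-TRW -/

namespace Pool.Agent.Q211.GR

open Finset Pool.Agent.TH176.Nag Pool.Agent.TH603.Sur Pool.Agent.TH2.NU Pool.Agent.TH641.UM
open Pool.Agent.Y205.FW Pool.Agent.Y205.MD Pool.Agent.H200W Pool.Agent.H200P Pool.Agent.H200C
open Pool.Agent.H200G

/-- GR-TRW -/
theorem trW : S_TrW := by
  intro M s e d
  constructor
  · intro hT hs
    obtain ⟨b, hb⟩ : ∃ b, b = (d : ℝ) + 3 := ⟨_, rfl⟩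
    have hb0 : 0 < b := by rw [hb]; positivity
    rw [← hb] at hs
    have h1 : SurM M (RO b 1) := by
      refine p_tipS hb0 one_pos ?_
      have e1 : b * (1 + 1) / 1 = 2 * b := by ring
      have e2 : ((1 : ℝ) + 1) ^ 2 / 1 = 4 := by norm_num
      rw [e1, e2]
      refine hT 4 (2 * b) (by norm_num) (by norm_num) (by linarith) ?_
      nlinarith
    refine Sur.shift h1 1 1 ?_
    rintro ⟨x, y⟩ ⟨a1, a2, a3⟩
    simp only at a1 a2 a3
    have b3 : x + y < (d : ℤ) + 3 := by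
      rw [hb, one_mul] at a3
      exact_mod_cast a3
    rw [HX, coe_filter]
    simp only [mem_product, mem_Icc, Nat.cast_zero, sub_zero, Set.mem_ofPred_eq]
    refine ⟨⟨⟨by omega, by omega⟩, by omega, by omega⟩, by omega, by omega⟩
  · intro hT hd he
    obtain ⟨b, hb⟩ : ∃ b : ℝ, b = max (d : ℝ) 1 := ⟨_, rfl⟩
    have hb1 : 1 ≤ b := by rw [hb]; exact le_max_right _ _
    have hbd : (d : ℝ) ≤ b := by rw [hb]; exact le_max_left _ _
    have hbe : b ^ 2 ≤ e := by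
      rcases max_cases (d : ℝ) 1 with ⟨h1, _⟩ | ⟨h1, _⟩
      · rw [hb, h1]
        exact hd
      · rw [hb, h1, one_pow]
        exact he
    have h1 : EmpM M (RC b 1) := by
      refine p_tipE (by linarith) one_pos ?_
      have e1 : b * (1 + 1) / 1 = 2 * b := by ring
      have e2 : ((1 : ℝ) + 1) ^ 2 / 1 = 4 := by norm_num
      rw [e1, e2]
      refine hT 4 (2 * b) (by norm_num) (by norm_num) (by linarith) ?_
      nlinarith
    refine Emp.mono h1 ?_
    rintro ⟨x, y⟩ hp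
    rw [HX, coe_filter] at hp
    simp only [mem_product, mem_Icc, Nat.cast_zero, sub_zero, Set.mem_ofPred_eq] at hp
    obtain ⟨⟨⟨a1, a2⟩, a3, a4⟩, a5, a6⟩ := hp
    refine ⟨a1, a3, ?_⟩
    have h2 : (x : ℝ) + y ≤ d := by exact_mod_cast a5
    simp only [one_mul]
    linarith

/-- GR-TRU -/
theorem trU : S_TrU := by
  intro M s e h hh hS hE he hes hs
  have h2 : 0 < h ^ 2 := by positivity
  constructor
  · intro ρ hρ
    obtain ⟨ρ0, h0⟩ : ∃ ρ0, ρ0 = (s + 3 / 2 * h) / h ^ 2 := ⟨_, rfl⟩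
    have e0 : ρ0 * h ^ 2 = s + 3 / 2 * h := by rw [h0]; field_simp
    have h3 : 2 ≤ ρ0 := by
      rw [h0, le_div_iff₀ h2]
      linarith
    have h4 : ρ0 ≤ 7 := by
      rw [h0, div_le_iff₀ h2]
      exact hs
    have h5 : ρ0 ≤ ρ := by
      rw [h0, div_le_iff₀ h2]
      exact hρ
    have h6 : SurM M (RO (ρ0 * h) ρ0) := by
      refine hS ρ0 (ρ0 * h) h3 h4 (by positivity) ?_
      have e1 : ρ0 * h / ρ0 = h := by field_simp
      have e2 : (ρ0 * h) ^ 2 / ρ0 = ρ0 * h ^ 2 := by field_simp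
      rw [e1, e2, e0]
    refine Sur.mono h6 ?_
    rintro ⟨x, y⟩ ⟨a1, a2, a3⟩
    refine ⟨a1, a2, ?_⟩
    simp only at a1 a3 ⊢
    have b1 : (0 : ℝ) < x := by exact_mod_cast a1
    have b2 : 0 < h - y := by
      by_contra hc
      push Not at hc
      have : ρ0 * (h - y) ≤ 0 := mul_nonpos_of_nonneg_of_nonpos (by linarith) hc
      nlinarith
    have b3 : ρ0 * (h - y) ≤ ρ * (h - y) := mul_le_mul_of_nonneg_right h5 b2.le
    nlinarith
  · intro ρ hρ0 hρ
    obtain ⟨ρ0, h0⟩ : ∃ ρ0, ρ0 = e / h ^ 2 := ⟨_, rfl⟩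
    have e0 : ρ0 * h ^ 2 = e := by rw [h0]; field_simp
    have h3 : 2 ≤ ρ0 := by
      rw [h0, le_div_iff₀ h2]
      exact he
    have h4 : ρ0 ≤ 7 := by
      rw [h0, div_le_iff₀ h2]
      linarith
    have h5 : ρ ≤ ρ0 := by
      rw [h0, le_div_iff₀ h2]
      exact hρ
    have h6 : EmpM M (RC (ρ0 * h) ρ0) := by
      refine hE ρ0 (ρ0 * h) h3 h4 (by positivity) ?_
      have e2 : (ρ0 * h) ^ 2 / ρ0 = ρ0 * h ^ 2 := by field_simp
      rw [e2, e0]
    refine Emp.mono h6 ?_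
    rintro ⟨x, y⟩ ⟨a1, a2, a3⟩
    refine ⟨a1, a2, ?_⟩
    simp only at a1 a3 ⊢
    have b1 : (0 : ℝ) ≤ x := by exact_mod_cast a1
    have b2 : 0 ≤ h - y := by
      by_contra hc
      push Not at hc
      have : ρ * (h - y) < 0 := mul_neg_of_pos_of_neg hρ0 hc
      nlinarith
    have b3 : ρ * (h - y) ≤ ρ0 * (h - y) := mul_le_mul_of_nonneg_right h5 b2
    nlinarith

end Pool.Agent.Q211.GR
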